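import Mathlib

set_option autoImplicit false

namespace Pool.Agent.Results.MP_3f0bb6_co.Exists

/-- A perfect matching of the complete graph on `Fin N`, given by the map sending each vertex to
its partner. -/
def IsPM {N : ℕ} (m : Fin N → Fin N) : Prop := ∀ x, m (m x) = x ∧ m x ≠ x

/-- `D` is an `(n-3,3)`-factorisation of `K_{2n}` of index `c`: a non-empty set of perfect
matchings such that every 6-element set `S` is a union of three edges in exactly `c > 0` of
them. -/
def IsFact (n : ℕ) (D : Finset (Fin (2 * n) → Fin (2 * n))) (c : ℕ) : Prop :=
  (∀ m ∈ D, IsPM m) ∧ D.Nonempty ∧ 0 < c ∧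
    ∀ S : Finset (Fin (2 * n)), S.card = 6 → (D.filter (fun m => ∀ x ∈ S, m x ∈ S)).card = c

def B : ℕ := 124781120394508220955335044139484124422684270170678806443826148385263125042798406579048025050018759393547120990797301799284657161478465146797303566672017241023572770440793727058398859072856833050365222967235812294345705995114236632988475323639489507073580701094866289669875226628884573681237530002046741863904420347305960851489560512052213629684770456440990347770686034765776374851929095807306864626526851155619725617063317380135951495386157625400608392398826092628558533853828489388069413072525071226734233293125411520042446800924891189606027890622301571850061702407054866149779722591944113164220683091944379856580005077755939082762989315415613432150630016921730406192826013756464991120355302539932033733015176094355410876957455473312703868175037447085261521523619234701883809100303298420317100766997769304586270652696870843358197468161094380978697575990493807979562853020617023314747746827063626972309664032829435628638502554861270943256918876885901758534827971827223582887122562429529842621395130513695412950864217475227387232001981910544438913141732869362185586965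119668840020009270259989503908131233762599917590288482116358870981851431192040851284356675606945790519843597169918229158110387595528105920544457717496733068697047097768044380383743009709625629584311586867259516306365409245340830798168229883866657372773847050812324864986803744450805934884758823889613086760198232370751449383706194153130750977939025487117274748260506225356139521986745930184317167168192681103013231023058751318480325626486305116157688989185693764518247125941551056226057456197263890682091276726944787721990332903950291323113585710874342017980959312403509739306950813499289088382585488752318505204692522585646499719209177848704933116354833583088344941103508953679825194302372838677171650128254261602689349570688969263117550954715088160437665133011672024596478424715298550937502168179650744782179928619569409371653603824182951321199405550491689736574992949112645888337206412809445359815489241577143581208962050623441684373305554485395586290954706841619692688130694065955779045777485642143763317199639509054530596377510287003277271535394236338906000739083232015249701387661030176125164204643289342156485743921599452436716547487783566910096585963439681604565125796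88539991257829701296077026140000663380167437729217028202611499522822977951509925876251458929755790021975968193840274876887513676260910612042534478753620317107311631273586318359593962692792345148214517704868863840760771324196432838602831293072372476476520782182749881943886240739253990433953397871883203547921382198516000544938388838649575584990518490244836624537050668127253172051499550087292907039485020316840503136625228020545606612228573596561443177306891445249683415882977457826917869992806682640208241271682649438664768124765060646407026772258980869301840736495336022569563593327623769755774157225301382403574970955411018448791811813493458592545339729201696635485389274594178634461940646841981933192359636672744752658397867251219503401748249559625050251360424804605167275681682784047347146948056056143807413586897087259397258802764124513178748523268008975315097395482436521311037120107893453263366965650410974589285663653499270396022900815396754612761715878813159082363439756702605500950489660113185120462203074298437679665556651621611033592659999667821358420347203847100855518448000970575069458121329067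

def pr (t x : ℕ) : ℕ := (B >>> (48 * t + 4 * x)) % 16 % 12

def tb (s t x : ℕ) : Bool := Nat.beq ((s >>> x) % 2) ((s >>> (pr t x)) % 2)

def allb (p : ℕ → Bool) (n : ℕ) : Bool := Nat.rec true (fun k r => p k && r) n

def cnt (p : ℕ → Bool) (n : ℕ) : ℕ := Nat.rec 0 (fun k r => cond (p k) (r + 1) r) n

def gg (t n : ℕ) : ℕ := Nat.rec 0 (fun x r => r + pr t x * 16 ^ x) n

lemma allb_iff (p : ℕ → Bool) (n : ℕ) : allb p n = true ↔ ∀ k < n, p k = true := by
  induction n with
  | zero => simp [allb]
  | succ n ih =>
    have : allb p (n + 1) = (p n && allb p n) := rfl
    rw [this, Bool.and_eq_true, ih]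
    constructor
    · rintro ⟨h1, h2⟩ k hk
      rcases Nat.lt_succ_iff_lt_or_eq.1 hk with h | rfl
      · exact h2 k h
      · exact h1
    · intro h
      exact ⟨h n (by omega), fun k hk => h k (by omega)⟩

lemma cnt_eq (p : ℕ → Bool) (n : ℕ) :
    cnt p n = ((Finset.range n).filter (fun k => p k = true)).card := by
  induction n with
  | zero => simp [cnt]
  | succ n ih =>
    have : cnt p (n + 1) = cond (p n) (cnt p n + 1) (cnt p n) := rfl
    rw [this, Finset.range_add_one, Finset.filter_insert, ih]
    cases h : p n
    · simp
    · simp

lemma gg_congr (t u n : ℕ) (h : ∀ x < n, pr t x = pr u x) : gg t n = gg u n := by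
  induction n with
  | zero => rfl
  | succ n ih =>
    show gg t n + pr t n * 16 ^ n = gg u n + pr u n * 16 ^ n
    rw [ih (fun x hx => h x (by omega)), h n (by omega)]

lemma c1 : allb (fun s => cond (Nat.beq (cnt (fun x => Nat.beq ((s >>> x) % 2) 1) 12) 6)
    (Nat.beq (cnt (fun t => allb (tb s t) 12) 231) 5) true) 4096 = true := by
  decide +kernel

lemma c2 : allb (fun t => allb (fun x => Nat.beq (pr t (pr t x)) x && !(Nat.beq (pr t x) x)) 12)
    232 = true := by
  decide +kernel

lemma c3 : allb (fun t => Nat.blt (gg t 12) (gg (t + 1) 12)) 230 = true := by
  decide +kernel

lemma c4 : allb (fun t => !(Nat.beq (gg t 12) (gg 231 12))) 231 = true := by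
  decide +kernel

def f (t : ℕ) (x : Fin 12) : Fin 12 := ⟨pr t x.1, Nat.mod_lt _ (by norm_num)⟩

lemma pm (t : ℕ) (ht : t < 232) : IsPM (f t) := by
  intro x
  have := (allb_iff _ _).1 ((allb_iff _ _).1 c2 t ht) x.1 x.2
  simp only [Bool.and_eq_true, Nat.beq_eq, Bool.not_eq_true'] at this
  refine ⟨Fin.ext this.1, fun h => ?_⟩
  have h2 : pr t x.1 = x.1 := congrArg Fin.val h
  rw [h2, Nat.beq_refl] at this
  exact absurd this.2 (by simp)

lemma gf (t u : ℕ) (h : f t = f u) : gg t 12 = gg u 12 :=
  gg_congr t u 12 fun x hx => congrArg Fin.val (congrFun h ⟨x, hx⟩)

lemma mono (t : ℕ) : ∀ u, t < u → u < 231 → gg t 12 < gg u 12 := by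
  intro u
  induction u with
  | zero => omega
  | succ u ih =>
    intro h1 h2
    have h3 : gg u 12 < gg (u + 1) 12 := by
      simpa using (allb_iff _ _).1 c3 u (by omega)
    rcases Nat.lt_succ_iff_lt_or_eq.1 h1 with h | rfl
    · exact (ih h (by omega)).trans h3
    · exact h3

lemma inj : Set.InjOn f (Finset.range 231 : Set ℕ) := by
  intro t ht u hu h
  have h1 := gf t u h
  simp only [Finset.coe_range, Set.mem_Iio] at ht hu
  rcases lt_trichotomy t u with h2 | h2 | h2
  · exact absurd h1 (mono t u h2 hu).ne
  · exact h2
  · exact absurd h1 (mono u t h2 ht).ne'

def D : Finset (Fin 12 → Fin 12) := (Finset.range 231).image f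

lemma count (S : Finset (Fin 12)) (hS : S.card = 6) :
    (D.filter (fun m => ∀ x ∈ S, m x ∈ S)).card = 5 := by
  let s := Nat.ofBits (fun x : Fin 12 => decide (x ∈ S))
  have hs0 : ∀ x : Fin 12, s.testBit x.1 = decide (x ∈ S) := fun x =>
    Nat.testBit_ofBits_lt _ _ x.2
  have hs : ∀ x : Fin 12, (s >>> x.1) % 2 = if x ∈ S then 1 else 0 := by
    intro x
    have := hs0 x
    rw [Nat.testBit_eq_decide_div_mod_eq, ← Nat.shiftRight_eq_div_pow] at this
    split_ifs with h
    · rw [decide_eq_true h] at this
      exact of_decide_eq_true this
    · simp only [h, decide_false, decide_eq_false_iff_not] at this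
      omega
  have hlt : s < 4096 := Nat.ofBits_lt_two_pow _
  have h1 := (allb_iff _ _).1 c1 s hlt
  have h2 : cnt (fun x => Nat.beq ((s >>> x) % 2) 1) 12 = 6 := by
    rw [cnt_eq, ← hS]
    symm
    refine Finset.card_bij (fun x _ => x.1) ?_ ?_ ?_
    · intro x hx
      simp [hs x, hx]
    · intro x _ y _ h
      exact Fin.ext h
    · intro k hk
      simp only [Finset.mem_filter, Finset.mem_range, Nat.beq_eq] at hk
      refine ⟨⟨k, hk.1⟩, ?_, rfl⟩
      by_contra h
      have := hs ⟨k, hk.1⟩
      rw [if_neg h] at this
      exact absurd (this.symm.trans hk.2) (by norm_num)
  simp only [h2, Nat.beq_refl, cond_true, Nat.beq_eq] at h1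
  rw [← h1, cnt_eq, D, Finset.filter_image,
    Finset.card_image_of_injOn (inj.mono (Finset.coe_subset.2 (Finset.filter_subset _ _)))]
  congr 1
  refine Finset.filter_congr fun t ht => ?_
  have hp := pm t (by have := Finset.mem_range.1 ht; omega)
  rw [allb_iff]
  constructor
  · intro h k hk
    have e1 := hs ⟨k, hk⟩
    have e2 := hs (f t ⟨k, hk⟩)
    simp only [tb, Nat.beq_eq]
    by_cases hm : (⟨k, hk⟩ : Fin 12) ∈ S
    · rw [if_pos hm] at e1
      rw [if_pos (h _ hm)] at e2
      exact e1.trans e2.symm
    · have hm2 : f t ⟨k, hk⟩ ∉ S := fun h' => hm (by
        have := h _ h'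
        rwa [(hp _).1] at this)
      rw [if_neg hm] at e1
      rw [if_neg hm2] at e2
      exact e1.trans e2.symm
  · intro h x hx
    have e0 := h x.1 x.2
    have e1 := hs x
    have e2 := hs (f t x)
    simp only [tb, Nat.beq_eq] at e0
    by_contra hm
    rw [if_pos hx] at e1
    rw [if_neg hm] at e2
    exact absurd (e1.symm.trans (e0.trans e2)) (by norm_num)

theorem result :
    ∃ n : ℕ, 6 ≤ n ∧ ∃ (D : Finset (Fin (2 * n) → Fin (2 * n))) (c : ℕ),
      IsFact n D c ∧ (∃ m, IsPM m ∧ m ∉ D) ∧ n = 6 ∧ c = 5 ∧ D.card = 231 := by
  have hc : D.card = 231 := by
    rw [D, Finset.card_image_of_injOn inj, Finset.card_range]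
  refine ⟨6, le_rfl, D, 5, ⟨?_, ?_, by norm_num, count⟩, ⟨f 231, pm 231 (by norm_num), ?_⟩,
    rfl, rfl, hc⟩
  · intro m hm
    obtain ⟨t, ht, rfl⟩ := Finset.mem_image.1 hm
    exact pm t (by have := Finset.mem_range.1 ht; omega)
  · exact Finset.card_pos.1 (by rw [hc]; norm_num)
  · intro hm
    obtain ⟨t, ht, h⟩ := Finset.mem_image.1 hm
    have h1 := (allb_iff _ _).1 c4 t (Finset.mem_range.1 ht)
    rw [gf t 231 h, Nat.beq_refl] at h1
    exact absurd h1 (by simp)

end Pool.Agent.Results.MP_3f0bb6_co.Exists
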